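import Mathlib
import Pool.Agent.Helper259.HtExt
import Pool.Agent.R366.NF.Rep

/-!
# Number fields in `ℂ`, and an upper bound for the number of points of projective space
-/

set_option autoImplicit false

namespace Pool.Agent.N752.RD

open NumberField Finset Height IsDedekindDomain
open scoped LinearAlgebra.Projectivization

/-- a subfield of a number field is a number field -/
lemma nf_of_le {K' K : IntermediateField ℚ ℂ} (hK : NumberField K) (h : K' ≤ K) :
    NumberField K' where
  to_charZero := inferInstance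
  to_finiteDimensional := by
    have : FiniteDimensional ℚ K := hK.to_finiteDimensional
    exact FiniteDimensional.of_injective (IntermediateField.inclusion h).toLinearMap
      (IntermediateField.inclusion h).injective

/-- a number field has finitely many subfields -/
lemma finite_sub {K : IntermediateField ℚ ℂ} (hK : NumberField K) :
    {K' : IntermediateField ℚ ℂ | K' ≤ K}.Finite := by
  have h1 : Finite (IntermediateField ℚ K) :=
    (Field.exists_primitive_element_iff_finite_intermediateField ℚ K).1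
      ⟨inferInstance, Field.exists_primitive_element ℚ K⟩
  refine (Set.finite_range (fun E : IntermediateField ℚ K => IntermediateField.lift E)).subset ?_
  intro K' h
  exact ⟨IntermediateField.restrict h, IntermediateField.lift_restrict h⟩

/-- the degree of a proper subfield -/
lemma finrank_lt {K' K : IntermediateField ℚ ℂ} (hK : NumberField K) (h : K' ≤ K) (hne : K' ≠ K) :
    Module.finrank ℚ K' < Module.finrank ℚ K := by
  have : FiniteDimensional ℚ K := hK.to_finiteDimensional
  refine lt_of_le_of_ne ?_ ?_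
  · exact LinearMap.finrank_le_finrank_of_injective
      (f := (IntermediateField.inclusion h).toLinearMap) (IntermediateField.inclusion h).injective
  · intro he
    exact hne (IntermediateField.eq_of_le_of_finrank_eq h he)

/-- existence of extensions of given degree -/
lemma exists_ext (k : IntermediateField ℚ ℂ) [NumberField k] (r : ℕ) (hr : 1 ≤ r) :
    ∃ (K : IntermediateField ℚ ℂ) (_ : NumberField K), k ≤ K ∧
      Module.finrank ℚ K = r * Module.finrank ℚ k := by
  classical
  obtain ⟨v⟩ : Nonempty (HeightOneSpectrum (𝓞 k)) := by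
    obtain ⟨M, hM⟩ := Ideal.exists_maximal (𝓞 k)
    refine ⟨⟨M, hM.isPrime, ?_⟩⟩
    intro h
    exact (Ring.ne_bot_of_isMaximal_of_not_isField hM (RingOfIntegers.not_isField k)) h
  obtain ⟨π, hπ⟩ := v.intValuation_exists_uniformizer
  have h1 : π ∈ v.asIdeal := by
    have := (v.intValuation_le_pow_iff_mem π 1).1 (by rw [hπ]; exact le_of_eq rfl)
    simpa using this
  have h2 : π ∉ v.asIdeal ^ 2 := by
    intro h
    have := (v.intValuation_le_pow_iff_mem π 2).2 h
    rw [hπ, WithZero.exp_le_exp] at this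
    norm_num at this
  set f : Polynomial (𝓞 k) := Polynomial.X ^ r - Polynomial.C π with hf
  have hmon : f.Monic := Polynomial.monic_X_pow_sub_C π (by omega)
  have hdeg : f.natDegree = r := Polynomial.natDegree_X_pow_sub_C
  have hirr : Irreducible f := by
    refine Polynomial.irreducible_of_eisenstein_criterion (P := v.asIdeal) v.isPrime ?_ ?_ ?_ ?_
      hmon.isPrimitive
    · rw [hmon.leadingCoeff]
      exact fun h => v.isPrime.ne_top ((Ideal.eq_top_iff_one _).2 h)
    · intro n hn
      rw [Polynomial.degree_eq_natDegree hmon.ne_zero, hdeg] at hn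
      have hn' : n < r := by exact_mod_cast hn
      rw [hf, Polynomial.coeff_sub, Polynomial.coeff_X_pow, if_neg (by omega), zero_sub,
        Polynomial.coeff_C]
      split_ifs
      · exact neg_mem h1
      · rw [neg_zero]; exact v.asIdeal.zero_mem
    · rw [Polynomial.degree_eq_natDegree hmon.ne_zero, hdeg]
      exact_mod_cast hr
    · rw [hf, Polynomial.coeff_sub, Polynomial.coeff_X_pow, if_neg (by omega), zero_sub,
        Polynomial.coeff_C_zero]
      intro h
      exact h2 (neg_mem_iff.1 h)
  set g : Polynomial k := f.map (algebraMap (𝓞 k) k) with hg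
  have hgirr : Irreducible g := (hmon.irreducible_iff_irreducible_map_fraction_map (K := k)).1 hirr
  have hgmon : g.Monic := hmon.map _
  have hgdeg : g.natDegree = r := by rw [hg, hmon.natDegree_map, hdeg]
  have hg0 : (g.map (algebraMap k ℂ)).degree ≠ 0 := by
    rw [Polynomial.degree_map, Polynomial.degree_eq_natDegree hgmon.ne_zero, hgdeg]
    have : r ≠ 0 := by omega
    exact_mod_cast this
  obtain ⟨α, hα⟩ := IsAlgClosed.exists_root _ hg0
  have hα' : Polynomial.aeval α g = 0 := by
    rw [Polynomial.aeval_def, ← Polynomial.eval_map]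
    exact hα
  have hint : IsIntegral k α := ⟨g, hgmon, hα'⟩
  have hmin : minpoly k α = g := (minpoly.eq_of_irreducible_of_monic hgirr hα' hgmon).symm
  set E : IntermediateField k ℂ := IntermediateField.adjoin k {α} with hE
  have hfr : Module.finrank k E = r := by
    rw [hE, IntermediateField.adjoin.finrank hint, hmin, hgdeg]
  have hfd : FiniteDimensional k E := IntermediateField.adjoin.finiteDimensional hint
  refine ⟨E.restrictScalars ℚ, ?_, ?_, ?_⟩
  · have : FiniteDimensional ℚ k := inferInstance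
    have h3 : FiniteDimensional ℚ E := FiniteDimensional.trans ℚ k E
    exact { to_charZero := inferInstance, to_finiteDimensional := h3 }
  · intro x hx
    show x ∈ E
    exact E.algebraMap_mem ⟨x, hx⟩
  · have h3 : Module.finrank ℚ E = Module.finrank ℚ k * Module.finrank k E :=
      (Module.finrank_mul_finrank ℚ k E).symm
    rw [hfr] at h3
    rw [mul_comm]
    exact h3

lemma mulHeight_rep {F : Type} [Field F] [NumberField F] {m : ℕ} (Q : ℙ F (Fin (m + 1) → F)) :
    Q.mulHeight = mulHeight Q.rep := by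
  conv_lhs => rw [← Q.mk_rep]
  rw [Projectivization.mulHeight_mk]

/-- two points with proportional coordinates agree -/
lemma eq_of_rep {F : Type} [Field F] {m : ℕ} {Q Q' : ℙ F (Fin (m + 1) → F)} {s : F}
    (h : ∀ i, Q.rep i = s * Q'.rep i) : Q = Q' := by
  rw [← Q.mk_rep, ← Q'.mk_rep, Projectivization.mk_eq_mk_iff']
  exact ⟨s, funext fun i => (h i).symm⟩

/-- an upper bound for the number of points over a fixed field -/
lemma pts_upper (F : Type) [Field F] [NumberField F] (m : ℕ) : ∃ C : ℝ, 0 ≤ C ∧ ∀ B : ℝ, 1 ≤ B →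
    {Q : ℙ F (Fin (m + 1) → F) | Q.mulHeight ≤ B ^ Module.finrank ℚ F}.Finite ∧
    ({Q : ℙ F (Fin (m + 1) → F) | Q.mulHeight ≤ B ^ Module.finrank ℚ F}.ncard : ℝ) ≤
      C * B ^ (Module.finrank ℚ F * (m + 1)) := by
  classical
  obtain ⟨A, hA, hcoord⟩ := Pool.Agent.R366.NF.coord_le F
  obtain ⟨C0, M, hC0, hrep⟩ := Pool.Agent.R366.NF.rep' F (n := m)
  set d := Module.finrank ℚ F with hd
  have hd0 : 0 < d := Module.finrank_pos
  have hd0' : (0 : ℝ) < d := by exact_mod_cast hd0
  have h1 : ∀ Q : ℙ F (Fin (m + 1) → F), ∃ (t : F) (y : Fin (m + 1) → 𝓞 F), t ≠ 0 ∧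
      (∀ j, ((y j : 𝓞 F) : F) = t * Q.rep j) ∧
      ∀ (w : InfinitePlace F) (j : Fin (m + 1)), w ((y j : 𝓞 F) : F) ≤
        C0 * Q.mulHeight ^ (1 / (d : ℝ)) := by
    intro Q
    obtain ⟨t, ht, y, hy, hw, -⟩ := hrep Q.rep Q.rep_nonzero
    refine ⟨t, y, ht, hy, ?_⟩
    rw [mulHeight_rep]
    exact hw
  choose t y ht hy hw using h1
  set C1 : ℝ := A * C0 with hC1
  have hC1p : 0 < C1 := by positivity
  refine ⟨(2 * C1 + 1) ^ (d * (m + 1)), by positivity, fun B hB => ?_⟩
  have hB0 : 0 < B := by linarith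
  set N : ℕ := ⌊C1 * B⌋₊ with hN
  have hNle : (N : ℝ) ≤ C1 * B := Nat.floor_le (by positivity)
  let ι := Fin (m + 1) × Pool.Agent.R366.NF.Idx F
  let box : Finset (ι → ℤ) := Fintype.piFinset fun _ => Finset.Icc (-(N : ℤ)) N
  let φ : ℙ F (Fin (m + 1) → F) → (ι → ℤ) := fun Q p => (RingOfIntegers.basis F).repr (y Q p.1) p.2
  have hmaps : ∀ Q ∈ {Q : ℙ F (Fin (m + 1) → F) | Q.mulHeight ≤ B ^ d}, φ Q ∈ (box : Set (ι → ℤ)) := by
    intro Q hQ
    rw [Finset.mem_coe, Fintype.mem_piFinset]
    intro p
    have hQ' : Q.mulHeight ≤ B ^ d := hQ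
    have hpos : 0 ≤ Q.mulHeight := by
      rw [mulHeight_rep]; exact (mulHeight_pos _).le
    have e1 : Q.mulHeight ^ (1 / (d : ℝ)) ≤ B := by
      calc Q.mulHeight ^ (1 / (d : ℝ)) ≤ (B ^ d) ^ (1 / (d : ℝ)) :=
            Real.rpow_le_rpow hpos hQ' (by positivity)
        _ = B := by
            rw [← Real.rpow_natCast, ← Real.rpow_mul hB0.le, mul_one_div_cancel hd0'.ne',
              Real.rpow_one]
    have e2 := hcoord (y Q p.1) (C0 * B) (by positivity) (fun w =>
      (hw Q w p.1).trans (mul_le_mul_of_nonneg_left e1 hC0.le)) p.2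
    have e3 : |φ Q p| ≤ (N : ℤ) := by
      have e4 : ((|φ Q p| : ℤ) : ℝ) ≤ C1 * B := by
        push_cast
        refine e2.trans (le_of_eq ?_)
        rw [hC1]; ring
      have e5 : (|φ Q p|).toNat ≤ N := Nat.le_floor (by
        have : (((|φ Q p|).toNat : ℕ) : ℝ) = ((|φ Q p| : ℤ) : ℝ) := by
          have h0 : (((|φ Q p|).toNat : ℕ) : ℤ) = |φ Q p| := Int.toNat_of_nonneg (abs_nonneg _)
          exact_mod_cast h0
        rw [this]; exact e4)
      have h0 : (((|φ Q p|).toNat : ℕ) : ℤ) = |φ Q p| := Int.toNat_of_nonneg (abs_nonneg _)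
      omega
    rw [Finset.mem_Icc]
    exact abs_le.1 e3
  have hinj : Set.InjOn φ {Q : ℙ F (Fin (m + 1) → F) | Q.mulHeight ≤ B ^ d} := by
    intro Q _ Q' _ h
    have e1 : ∀ j, y Q j = y Q' j := by
      intro j
      apply (RingOfIntegers.basis F).repr.injective
      ext l
      exact congrFun h (j, l)
    refine eq_of_rep (s := (t Q)⁻¹ * t Q') fun i => ?_
    have e2 := hy Q i
    have e3 := hy Q' i
    rw [e1 i, e3] at e2
    rw [mul_assoc, e2, ← mul_assoc, inv_mul_cancel₀ (ht Q), one_mul]
  have hfin : {Q : ℙ F (Fin (m + 1) → F) | Q.mulHeight ≤ B ^ d}.Finite :=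
    Set.Finite.of_finite_image ((Finset.finite_toSet box).subset (by
      rintro _ ⟨Q, hQ, rfl⟩; exact hmaps Q hQ)) hinj
  refine ⟨hfin, ?_⟩
  have hcard : ({Q : ℙ F (Fin (m + 1) → F) | Q.mulHeight ≤ B ^ d}.ncard : ℝ) ≤ (box.card : ℝ) := by
    have := Set.ncard_le_ncard_of_injOn φ hmaps hinj (Finset.finite_toSet box)
    rw [Set.ncard_coe_finset] at this
    exact_mod_cast this
  have hbox : (box.card : ℝ) = (2 * N + 1 : ℝ) ^ (d * (m + 1)) := by
    have e1 : box.card = (2 * N + 1) ^ (d * (m + 1)) := by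
      show (Fintype.piFinset fun _ : ι => Finset.Icc (-(N : ℤ)) N).card = _
      rw [Fintype.card_piFinset, Finset.prod_const, Finset.card_univ, Int.card_Icc]
      have e2 : Fintype.card ι = d * (m + 1) := by
        rw [Fintype.card_prod, Fintype.card_fin, Pool.Agent.R366.NF.card_idx, mul_comm]
      rw [e2]
      congr 1
      omega
    rw [e1]
    push_cast
    rfl
  rw [hbox] at hcard
  refine hcard.trans ?_
  rw [← mul_pow]
  refine pow_le_pow_left₀ (by positivity) ?_ _
  nlinarith

end Pool.Agent.N752.RD
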